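import Pool.Graph.R_pool_sql_team_39128cda.H.MP_ab521b_an.B

set_option autoImplicit false
open Set Filter Topology MeasureTheory Metric ComplexConjugate Pointwise

namespace Pool.Agent.H61.AbCont

open Pool.Agent.H.MP_ab521b_an

/-- `z ^ m` for `m ≥ 0`, `(conj z) ^ (-m)` for `m < 0` -/
noncomputable def e (m : ℤ) (z : ℂ) : ℂ := if 0 ≤ m then z ^ m.natAbs else conj z ^ m.natAbs

@[fun_prop]
theorem e_cont (m : ℤ) : Continuous (e m) := by unfold e; split_ifs <;> fun_prop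

theorem e_norm (m : ℤ) (z : ℂ) : ‖e m z‖ = ‖z‖ ^ m.natAbs := by unfold e; split_ifs <;> simp

theorem e_rot (m : ℤ) {c : ℂ} (hc : ‖c‖ = 1) (z : ℂ) : e m (c * z) = c ^ m * e m z := by
  unfold e
  obtain ⟨k, rfl | rfl⟩ := m.eq_nat_or_neg
  · simp [mul_pow]
  · rcases k.eq_zero_or_pos with rfl | hk
    · simp
    have : ¬ (0 : ℤ) ≤ -(k : ℤ) := by omega
    simp only [this, if_false, Int.natAbs_neg, Int.natAbs_natCast, map_mul, mul_pow, zpow_neg, zpow_natCast]
    congr 1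
    rw [← inv_pow]
    congr 1
    rw [Complex.inv_def, Complex.normSq_eq_norm_sq, hc]
    simp

theorem e_mul (m l : ℤ) : ∃ j : ℕ, ∀ z, e m z * e l z = e (m + l) z * ((‖z‖ ^ 2 : ℝ) : ℂ) ^ j := by
  have sq : ∀ z : ℂ, ((‖z‖ ^ 2 : ℝ) : ℂ) = z * conj z := fun z => by rw [Complex.mul_conj, Complex.sq_norm]
  unfold e
  rcases le_or_gt 0 m with h1 | h1 <;> rcases le_or_gt 0 l with h2 | h2
  · refine ⟨0, fun z => ?_⟩
    rw [if_pos h1, if_pos h2, if_pos (by omega), ← pow_add]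
    simp only [pow_zero, mul_one]
    congr 1; omega
  · rcases le_or_gt 0 (m + l) with h3 | h3
    · refine ⟨l.natAbs, fun z => ?_⟩
      rw [if_pos h1, if_neg (by omega), if_pos h3, sq, mul_pow, ← mul_assoc, ← pow_add]
      congr 2; omega
    · refine ⟨m.natAbs, fun z => ?_⟩
      rw [if_pos h1, if_neg (by omega), if_neg (by omega), sq, mul_pow, mul_left_comm, ← pow_add]
      congr 2; omega
  · rcases le_or_gt 0 (m + l) with h3 | h3
    · refine ⟨m.natAbs, fun z => ?_⟩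
      rw [if_neg (by omega), if_pos h2, if_pos h3, sq, mul_pow, ← mul_assoc, ← pow_add, mul_comm]
      congr 2; omega
    · refine ⟨l.natAbs, fun z => ?_⟩
      rw [if_neg (by omega), if_pos h2, if_neg (by omega), sq, mul_pow, mul_left_comm, ← pow_add, mul_comm]
      congr 2; omega
  · refine ⟨0, fun z => ?_⟩
    rw [if_neg (by omega), if_neg (by omega), if_neg (by omega), ← pow_add]
    simp only [pow_zero, mul_one]
    congr 1; omega

/-- finite sums of components -/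
noncomputable def Fc (c : ℤ →₀ C(ℝ, ℂ)) (z : ℂ) : ℂ := c.sum fun m f => e m z * f (‖z‖ ^ 2)

theorem Fc_add (c d : ℤ →₀ C(ℝ, ℂ)) (z : ℂ) : Fc (c + d) z = Fc c z + Fc d z :=
  Finsupp.sum_add_index' (by simp) (by intros; simp [mul_add])

theorem Fc_single (m : ℤ) (f : C(ℝ, ℂ)) (z : ℂ) : Fc (.single m f) z = e m z * f (‖z‖ ^ 2) := by
  simp [Fc]

@[fun_prop]
theorem Fc_cont (c : ℤ →₀ C(ℝ, ℂ)) : Continuous (Fc c) := by
  unfold Fc Finsupp.sum
  fun_prop

def T (F : ℂ → ℂ) : Prop := ∃ c, ∀ z, F z = Fc c z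

theorem T.add {F G : ℂ → ℂ} (hF : T F) (hG : T G) : T fun z => F z + G z := by
  obtain ⟨c, hc⟩ := hF
  obtain ⟨d, hd⟩ := hG
  exact ⟨c + d, fun z => by beta_reduce; rw [Fc_add, hc, hd]⟩

theorem T.mul {F G : ℂ → ℂ} (hF : T F) (hG : T G) : T fun z => F z * G z := by
  obtain ⟨c, hc⟩ := hF
  obtain ⟨d, hd⟩ := hG
  simp only [hc, hd]
  clear hc hd
  induction c using Finsupp.induction_linear with
  | zero => exact ⟨0, fun z => by simp [Fc]⟩
  | add c c' h h' =>
    obtain ⟨a, ha⟩ := h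
    obtain ⟨b, hb⟩ := h'
    exact ⟨a + b, fun z => by beta_reduce at *; rw [Fc_add, Fc_add, add_mul, ha, hb]⟩
  | single m f =>
    induction d using Finsupp.induction_linear with
    | zero => exact ⟨0, fun z => by simp [Fc]⟩
    | add c c' h h' =>
      obtain ⟨a, ha⟩ := h
      obtain ⟨b, hb⟩ := h'
      exact ⟨a + b, fun z => by beta_reduce at *; rw [Fc_add, Fc_add, mul_add, ha, hb]⟩
    | single l g =>
      obtain ⟨j, hj⟩ := e_mul m l
      refine ⟨.single (m + l) (⟨fun x => (x : ℂ) ^ j, by fun_prop⟩ * f * g), fun z => ?_⟩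
      beta_reduce
      rw [Fc_single, Fc_single, Fc_single, mul_mul_mul_comm, hj]
      simp only [ContinuousMap.mul_apply, ContinuousMap.coe_mk]
      ring

theorem T.const (a : ℂ) : T fun _ => a :=
  ⟨.single 0 (.const _ a), fun z => by simp [Fc_single, e]⟩

theorem T.id : T fun z => z := ⟨.single 1 1, fun z => by simp [Fc_single, e]⟩

theorem e_conj (m : ℤ) (z : ℂ) : conj (e m z) = e (-m) z := by
  unfold e
  rcases lt_trichotomy m 0 with h | rfl | h
  · rw [if_neg (by omega), if_pos (by omega)]; simp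
  · simp
  · rw [if_pos h.le, if_neg (by omega)]; simp

theorem T.conj {F : ℂ → ℂ} (hF : T F) : T fun z => conj (F z) := by
  obtain ⟨c, hc⟩ := hF
  simp only [hc]
  clear hc
  induction c using Finsupp.induction_linear with
  | zero => exact ⟨0, fun z => by simp [Fc]⟩
  | add c c' h h' =>
    obtain ⟨a, ha⟩ := h
    obtain ⟨b, hb⟩ := h'
    exact ⟨a + b, fun z => by beta_reduce at *; rw [Fc_add, Fc_add, map_add, ha, hb]⟩
  | single m f =>
    exact ⟨.single (-m) (star f), fun z => by simp [Fc_single, e_conj]⟩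

variable {n : ℕ}

/-- rotation invariance kills components of nonzero degree -/
theorem rot0 (o : Fin n) (H : ℂ → ℂ) (r : ℤ) (hr : r ≠ 0)
    (h : ∀ c : ℂ, ‖c‖ = 1 → ∀ z, H (c * z) = c ^ r * H z) : ∫ u : Sp n, H (u.1 o) ∂sg n = 0 := by
  let c : Circle := Circle.exp (Real.pi / r)
  have h1 := inv (n := n) (.piLpCongrRight 2 fun _ => rotation c) fun y => H (y o)
  have h2 : (c : ℂ) ^ r = -1 := by
    have : (r : ℂ) ≠ 0 := Int.cast_ne_zero.2 hr
    rw [← Circle.coe_zpow, ← Circle.exp_zsmul, Circle.coe_exp, ← Complex.exp_pi_mul_I]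
    congr 1
    simp
    field_simp
  simp only [LinearIsometryEquiv.piLpCongrRight_apply, rotation_apply] at h1
  have h3 : ∀ u : Sp n, H (c * u.1 o) = -1 * H (u.1 o) := fun u => by
    rw [h _ (Circle.norm_coe c), h2]
  simp only [h3, integral_const_mul] at h1
  linear_combination (-1 / 2 : ℂ) * h1


/-- the `m`-th component is bounded in `L¹` by the sum -/
theorem comp (o : Fin n) (c : ℤ →₀ C(ℝ, ℂ)) (m : ℤ) :
    ∫ u : Sp n, ‖e m (u.1 o) * c m (‖u.1 o‖ ^ 2)‖ ∂sg n ≤ ∫ u : Sp n, ‖Fc c (u.1 o)‖ ∂sg n := by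
  let w : ℂ → ℂ := fun z => e m z * c m (‖z‖ ^ 2)
  let G : ℂ → ℂ := fun z => conj (w z) / ‖w z‖
  have wc : Continuous w := by fun_prop
  have Gm : Measurable G := (Complex.continuous_conj.comp wc).measurable.div
    (Complex.continuous_ofReal.comp wc.norm).measurable
  have G1 : ∀ z, ‖G z‖ ≤ 1 := fun z => by
    simp only [G, norm_div, RCLike.norm_conj, Complex.norm_real, norm_norm]
    exact div_self_le_one _
  have wG : ∀ z, w z * G z = ‖w z‖ := fun z => by
    rcases eq_or_ne (w z) 0 with h | h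
    · simp [h]
    · have : (‖w z‖ : ℂ) ≠ 0 := by simpa using h
      simp only [G]
      rw [mul_div_assoc', Complex.mul_conj, Complex.normSq_eq_norm_sq]
      push_cast
      field_simp
  have Gi : ∀ f : Sp n → ℂ, Continuous f → Integrable (fun u => f u * G (u.1 o)) (sg n) := fun f hf => by
    have := (ci (sg n) hf).bdd_mul (f := fun u : Sp n => G (u.1 o)) (c := 1)
      (Gm.comp (by fun_prop : Measurable fun u : Sp n => u.1 o)).aestronglyMeasurable
      (.of_forall fun u => G1 _)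
    simpa only [mul_comm] using this
  have z0 : ∀ l ≠ m, ∫ u : Sp n, e l (u.1 o) * c l (‖u.1 o‖ ^ 2) * G (u.1 o) ∂sg n = 0 := fun l hl => by
    refine rot0 o (fun z => e l z * c l (‖z‖ ^ 2) * G z) (l - m) (sub_ne_zero.2 hl) fun a ha z => ?_
    have a0 : a ≠ 0 := fun h => by simp [h] at ha
    have w1 : w (a * z) = a ^ m * w z := by simp only [w, e_rot m ha, norm_mul, ha, one_mul, mul_assoc]
    have w2 : G (a * z) = a ^ (-m) * G z := by
      simp only [G, w1, norm_mul, norm_zpow, ha, one_zpow, one_mul, map_mul, map_zpow₀]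
      rw [mul_div_assoc]
      congr 1
      rw [zpow_neg, ← inv_zpow]
      congr 1
      rw [Complex.inv_def, Complex.normSq_eq_norm_sq, ha]
      simp
    simp only [e_rot l ha, norm_mul, ha, one_mul, w2, sub_eq_add_neg, zpow_add₀ a0]
    ring
  by_cases hm : m ∈ c.support
  · have k : ∫ u : Sp n, Fc c (u.1 o) * G (u.1 o) ∂sg n = ∫ u : Sp n, ‖w (u.1 o)‖ ∂sg n := by
      simp only [Fc, Finsupp.sum, Finset.sum_mul]
      rw [integral_finsetSum _ fun l _ => Gi _ (by fun_prop), Finset.sum_eq_single m (fun l _ hl => z0 l hl)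
        (fun h => absurd hm h), ← integral_complex_ofReal]
      congr 1; ext u
      exact wG _
    have k2 : ‖∫ u : Sp n, Fc c (u.1 o) * G (u.1 o) ∂sg n‖ ≤ ∫ u : Sp n, ‖Fc c (u.1 o)‖ ∂sg n :=
      norm_integral_le_of_norm_le (ci _ (by fun_prop)) (.of_forall fun u => by
        rw [norm_mul]; exact mul_le_of_le_one_right (norm_nonneg _) (G1 _))
    rw [k, Complex.norm_real] at k2
    exact (le_abs_self _).trans k2
  · rw [Finsupp.notMem_support_iff.1 hm]
    simp only [ContinuousMap.zero_apply, mul_zero, norm_zero, integral_zero]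
    exact integral_nonneg fun _ => norm_nonneg _

section
variable {μ : Measure (Sp n)} [IsProbabilityMeasure μ] {z : Sp n → ℂ} {o : Fin n}

/-- the hypothesis of the library estimate -/
def Hyp (μ : Measure (Sp n)) (z : Sp n → ℂ) (o : Fin n) : Prop :=
  ∀ s : ℝ, 0 < s → s < 1 → ∃ C : ℝ, ∀ (k : ℕ) (φ : ℝ → ℝ), Continuous φ →
    ‖∫ u, z u ^ k * φ (‖z u‖ ^ 2) ∂μ‖ ≤ C / s ^ k * ∫ u : Sp n, (‖u.1 o‖ ^ 2) ^ k * |φ (‖u.1 o‖ ^ 2)| ∂sg n

theorem est1 (hz : Continuous z) (H : Hyp μ z o) {s : ℝ} (s0 : 0 < s) (s1 : s < 1) :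
    ∃ C : ℝ, 0 ≤ C ∧ ∀ (m : ℤ) (φ : ℝ → ℂ), Continuous φ →
      ‖∫ u, e m (z u) * φ (‖z u‖ ^ 2) ∂μ‖ ≤
        C / s ^ m.natAbs * ∫ u : Sp n, (‖u.1 o‖ ^ 2) ^ m.natAbs * ‖φ (‖u.1 o‖ ^ 2)‖ ∂sg n := by
  obtain ⟨C, hC⟩ := H s s0 s1
  have key : ∀ (k : ℕ) (φ : ℝ → ℂ), Continuous φ → ‖∫ u, z u ^ k * φ (‖z u‖ ^ 2) ∂μ‖ ≤
      (2 * |C|) / s ^ k * ∫ u : Sp n, (‖u.1 o‖ ^ 2) ^ k * ‖φ (‖u.1 o‖ ^ 2)‖ ∂sg n := fun k φ hφ => by
    have a : ∀ ψ : ℝ → ℝ, Continuous ψ → (∀ x, |ψ x| ≤ ‖φ x‖) → ‖∫ u, z u ^ k * ψ (‖z u‖ ^ 2) ∂μ‖ ≤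
        |C| / s ^ k * ∫ u : Sp n, (‖u.1 o‖ ^ 2) ^ k * ‖φ (‖u.1 o‖ ^ 2)‖ ∂sg n := fun ψ hψ h => by
      refine (hC k ψ hψ).trans (mul_le_mul (by gcongr; exact le_abs_self C)
        (integral_mono (ci _ (by fun_prop)) (ci _ (by fun_prop)) fun u => ?_)
        (integral_nonneg fun u => by positivity) (by positivity))
      exact mul_le_mul_of_nonneg_left (h _) (by positivity)
    have b1 := a (fun x => (φ x).re) (by fun_prop) fun x => Complex.abs_re_le_norm _
    have b2 := a (fun x => (φ x).im) (by fun_prop) fun x => Complex.abs_im_le_norm _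
    have : ∫ u, z u ^ k * φ (‖z u‖ ^ 2) ∂μ = ∫ u, z u ^ k * ((φ (‖z u‖ ^ 2)).re : ℂ) ∂μ +
        Complex.I * ∫ u, z u ^ k * ((φ (‖z u‖ ^ 2)).im : ℂ) ∂μ := by
      rw [← integral_const_mul, ← integral_add (ci μ (by fun_prop)) (ci μ (by fun_prop))]
      congr 1; ext u
      conv_lhs => rw [← Complex.re_add_im (φ (‖z u‖ ^ 2))]
      ring
    rw [this]
    refine (norm_add_le _ _).trans ?_
    rw [norm_mul, Complex.norm_I, one_mul]
    refine (add_le_add b1 b2).trans_eq ?_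
    ring
  refine ⟨2 * |C|, by positivity, fun m φ hφ => ?_⟩
  rcases le_or_gt 0 m with h | h
  · simp only [e, if_pos h]
    exact key _ φ hφ
  · simp only [e, if_neg (not_le.2 h)]
    have := key m.natAbs (fun x => conj (φ x)) (by fun_prop)
    rw [← RCLike.norm_conj, ← integral_conj] at this
    simpa using this

end

end Pool.Agent.H61.AbCont
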