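import Pool.Agent.H61.AbContA

set_option autoImplicit false
open Set Filter Topology MeasureTheory Metric ComplexConjugate Pointwise

namespace Pool.Agent.H61.AbCont

open Pool.Agent.H.MP_ab521b_an

variable {n : ℕ} {μ : Measure (Sp n)} [IsProbabilityMeasure μ] {z : Sp n → ℂ} {o : Fin n}

theorem summ {q : ℝ} (q0 : 0 ≤ q) (q1 : q < 1) : Summable fun m : ℤ => q ^ m.natAbs :=
  Summable.of_nat_of_neg (by simpa using summable_geometric_of_lt_one q0 q1)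
    (by simpa using summable_geometric_of_lt_one q0 q1)

theorem est2 (hz : Continuous z) (H : Hyp μ z o) {s' : ℝ} (s0 : 0 < s') (s1 : s' < 1) :
    ∃ K : ℝ, 0 ≤ K ∧ ∀ c : ℤ →₀ C(ℝ, ℂ), (∀ m x, s' < x → c m x = 0) →
      ‖∫ u, Fc c (z u) ∂μ‖ ≤ K * ∫ u : Sp n, ‖Fc c (u.1 o)‖ ∂sg n := by
  have r0 : 0 < √s' := Real.sqrt_pos.2 s0
  have r1 : √s' < 1 := by rw [Real.sqrt_lt' one_pos]; simpa using s1
  obtain ⟨C, C0, hC⟩ := est1 hz H (s := (√s' + 1) / 2) (by positivity) (by linarith)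
  set s := (√s' + 1) / 2 with hs
  have sp : 0 < s := by positivity
  have q1 : √s' / s < 1 := (div_lt_one sp).2 (by linarith)
  have q0 : 0 ≤ √s' / s := by positivity
  clear_value s
  refine ⟨C * ∑' m : ℤ, (√s' / s) ^ m.natAbs, mul_nonneg C0 (tsum_nonneg fun m => by positivity), fun c hc => ?_⟩
  set I := ∫ u : Sp n, ‖Fc c (u.1 o)‖ ∂sg n with hI
  have I0 : 0 ≤ I := integral_nonneg fun _ => norm_nonneg _
  have k : ∀ m, ‖∫ u, e m (z u) * c m (‖z u‖ ^ 2) ∂μ‖ ≤ C * (√s' / s) ^ m.natAbs * I := fun m => by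
    refine (hC m (c m) (by fun_prop)).trans ?_
    have h1 : ∫ u : Sp n, (‖u.1 o‖ ^ 2) ^ m.natAbs * ‖c m (‖u.1 o‖ ^ 2)‖ ∂sg n ≤ √s' ^ m.natAbs * I := by
      refine le_trans ?_ (mul_le_mul_of_nonneg_left (comp o c m) (by positivity))
      rw [← integral_const_mul]
      refine integral_mono (ci _ (by fun_prop)) (ci _ (by fun_prop)) fun u => ?_
      simp only [norm_mul, e_norm]
      rcases lt_or_ge s' (‖u.1 o‖ ^ 2) with h | h
      · simp [hc m _ h]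
      · have : ‖u.1 o‖ ≤ √s' := Real.le_sqrt_of_sq_le h
        rw [← mul_assoc, sq, mul_pow]
        gcongr
    calc _ ≤ C / s ^ m.natAbs * (√s' ^ m.natAbs * I) := by gcongr
      _ = _ := by rw [div_pow]; ring
  have : ∫ u, Fc c (z u) ∂μ = ∑ m ∈ c.support, ∫ u, e m (z u) * c m (‖z u‖ ^ 2) ∂μ := by
    simp only [Fc, Finsupp.sum]
    rw [integral_finsetSum _ fun l _ => ci _ (by fun_prop)]
  rw [this]
  refine (norm_sum_le_of_le _ fun m _ => k m).trans ?_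
  rw [← Finset.sum_mul, ← Finset.mul_sum]
  gcongr
  exact (summ q0 q1).sum_le_tsum _ fun m _ => by positivity

/-- closed unit disc -/
abbrev Dc : Set ℂ := closedBall 0 1

instance : CompactSpace Dc := isCompact_iff_compactSpace.1 (isCompact_closedBall _ _)

theorem dense_T (f : C(Dc, ℂ)) {ε : ℝ} (hε : 0 < ε) : ∃ F, T F ∧ ∀ x : Dc, ‖f x - F x‖ ≤ ε := by
  have h1 : f ∈ StarAlgebra.elemental ℂ (ContinuousMap.restrict Dc (.id ℂ)) := by
    rw [ContinuousMap.elemental_id_eq_top]; trivial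
  have h2 : f ∈ closure (StarAlgebra.adjoin ℂ {ContinuousMap.restrict Dc (.id ℂ)} : Set C(Dc, ℂ)) := h1
  obtain ⟨g, hg, hd⟩ := Metric.mem_closure_iff.1 h2 ε hε
  have h3 : ∃ F, T F ∧ ∀ x : Dc, g x = F x := by
    clear hd
    induction hg using StarAlgebra.adjoin_induction with
    | mem x hx => obtain rfl := hx; exact ⟨_, T.id, fun x => rfl⟩
    | algebraMap r => exact ⟨_, T.const r, fun x => rfl⟩
    | add x y _ _ hx hy =>
      obtain ⟨F, hF, a⟩ := hx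
      obtain ⟨G, hG, b⟩ := hy
      exact ⟨_, hF.add hG, fun t => by simp [a, b]⟩
    | mul x y _ _ hx hy =>
      obtain ⟨F, hF, a⟩ := hx
      obtain ⟨G, hG, b⟩ := hy
      exact ⟨_, hF.mul hG, fun t => by simp [a, b]⟩
    | star x _ hx =>
      obtain ⟨F, hF, a⟩ := hx
      exact ⟨_, hF.conj, fun t => by simp [a]⟩
  obtain ⟨F, hF, a⟩ := h3
  refine ⟨F, hF, fun x => ?_⟩
  rw [← a, ← dist_eq_norm]
  exact (ContinuousMap.dist_apply_le_dist x).trans hd.le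

theorem n1 (u : Sp n) (i : Fin n) : ‖u.1 i‖ ≤ 1 :=
  (PiLp.norm_apply_le u.1 i).trans_eq (norm_eq_of_mem_sphere u)

theorem est3 (hz : Continuous z) (z1 : ∀ u, ‖z u‖ ≤ 1) (H : Hyp μ z o) {s' : ℝ} (s0 : 0 < s') (s1 : s' < 1) :
    ∃ K : ℝ, 0 ≤ K ∧ ∀ (f : C(ℂ, ℂ)) (χ : C(ℝ, ℝ)), (∀ x, s' < x → χ x = 0) →
      ‖∫ u, f (z u) * χ (‖z u‖ ^ 2) ∂μ‖ ≤ K * ∫ u : Sp n, ‖f (u.1 o) * χ (‖u.1 o‖ ^ 2)‖ ∂sg n := by
  obtain ⟨K, K0, hK⟩ := est2 hz H s0 s1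
  refine ⟨K, K0, fun f χ hχ => ?_⟩
  set I := ∫ u, |χ (‖z u‖ ^ 2)| ∂μ with hI
  set J := ∫ u : Sp n, |χ (‖u.1 o‖ ^ 2)| ∂sg n with hJ
  have I0 : 0 ≤ I := integral_nonneg fun _ => abs_nonneg _
  have J0 : 0 ≤ J := integral_nonneg fun _ => abs_nonneg _
  refine le_of_forall_pos_le_add fun δ hδ => ?_
  obtain ⟨ε, ε0, hε⟩ : ∃ ε, 0 < ε ∧ ε * (I + K * J) ≤ δ :=
    ⟨δ / (I + K * J + 1), by positivity, by
      rw [div_mul_eq_mul_div, div_le_iff₀ (by positivity)]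
      nlinarith [mul_nonneg K0 J0]⟩
  obtain ⟨F, ⟨c, hF⟩, hd⟩ := dense_T (f.restrict Dc) ε0
  let c' : ℤ →₀ C(ℝ, ℂ) := c.mapRange (fun g => g * ⟨fun x => (χ x : ℂ), by fun_prop⟩) (zero_mul _)
  have hc' : ∀ z, Fc c' z = F z * χ (‖z‖ ^ 2) := fun z => by
    rw [hF, Fc, Fc, Finsupp.sum_mapRange_index (by simp), Finsupp.sum, Finsupp.sum, Finset.sum_mul]
    simp [mul_assoc]
  have h0 := hK c' fun m x hx => by simp [c', hχ x hx]
  simp only [hc'] at h0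
  have Fc1 : Continuous F := by rw [show F = Fc c from funext hF]; fun_prop
  have d1 : ∀ w : ℂ, ‖w‖ ≤ 1 → ‖f w - F w‖ ≤ ε := fun w hw => hd ⟨w, by simpa using hw⟩
  have a1 : ‖∫ u, f (z u) * χ (‖z u‖ ^ 2) ∂μ‖ ≤ ‖∫ u, F (z u) * χ (‖z u‖ ^ 2) ∂μ‖ + ε * I := by
    have : ∫ u, f (z u) * χ (‖z u‖ ^ 2) ∂μ = ∫ u, F (z u) * χ (‖z u‖ ^ 2) ∂μ +
        ∫ u, (f (z u) - F (z u)) * χ (‖z u‖ ^ 2) ∂μ := by
      rw [← integral_add (ci _ (by fun_prop)) (ci _ (by fun_prop))]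
      congr 1; ext; ring
    rw [this]
    refine (norm_add_le _ _).trans (add_le_add_right ?_ _)
    rw [hI, ← integral_const_mul]
    refine norm_integral_le_of_norm_le (ci _ (by fun_prop)) (.of_forall fun u => ?_)
    rw [norm_mul, Complex.norm_real]
    exact mul_le_mul_of_nonneg_right (d1 _ (z1 u)) (norm_nonneg _)
  have a2 : ∫ u : Sp n, ‖F (u.1 o) * χ (‖u.1 o‖ ^ 2)‖ ∂sg n ≤
      ∫ u : Sp n, ‖f (u.1 o) * χ (‖u.1 o‖ ^ 2)‖ ∂sg n + ε * J := by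
    rw [hJ, ← integral_const_mul, ← integral_add (ci _ (by fun_prop)) (ci _ (by fun_prop))]
    refine integral_mono (ci _ (by fun_prop)) (ci _ (by fun_prop)) fun u => ?_
    simp only [norm_mul, Complex.norm_real, Real.norm_eq_abs]
    rw [← add_mul]
    refine mul_le_mul_of_nonneg_right ?_ (abs_nonneg _)
    have := norm_sub_norm_le (F (u.1 o)) (f (u.1 o))
    rw [norm_sub_rev] at this
    linarith [d1 _ (n1 u o)]
  nlinarith [mul_le_mul_of_nonneg_left a2 K0]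

end Pool.Agent.H61.AbCont
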