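import Pool.Agent.H61.AbContB

set_option autoImplicit false
open Set Filter Topology MeasureTheory Metric ComplexConjugate Pointwise
open scoped ENNReal

namespace Pool.Agent.H61.AbCont

open Pool.Agent.H.MP_ab521b_an

variable {n : ℕ} {μ : Measure (Sp n)} [IsProbabilityMeasure μ] {z : Sp n → ℂ} {o : Fin n}

theorem dom0 (hz : Continuous z) (z1 : ∀ u, ‖z u‖ ≤ 1) (H : Hyp μ z o) {s : ℝ} (s0 : 0 < s) (s1 : s < 1) :
    ∃ K : ℝ≥0∞, K ≠ ∞ ∧ ∀ A U : Set ℂ, IsClosed A → IsOpen U → A ⊆ U →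
      μ {u | z u ∈ A ∧ ‖z u‖ ^ 2 ≤ s} ≤ K * sg n {u | u.1 o ∈ U} := by
  obtain ⟨s', hs1, hs2⟩ := exists_between s1
  obtain ⟨K, K0, hK⟩ := est3 hz z1 H (s0.trans hs1) hs2
  refine ⟨ENNReal.ofReal K, ENNReal.ofReal_ne_top, fun A U hA hU hAU => ?_⟩
  obtain ⟨f, f0, f1, f2⟩ := exists_continuous_zero_one_of_isClosed hU.isClosed_compl hA
    (disjoint_left.2 fun x hx hx' => hx (hAU hx'))
  let χ : C(ℝ, ℝ) := ⟨fun x => max 0 (min 1 ((s' - x) / (s' - s))), by fun_prop⟩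
  have c0 : ∀ x, 0 ≤ χ x := fun x => le_max_left _ _
  have c1 : ∀ x, χ x ≤ 1 := fun x => max_le zero_le_one (min_le_left _ _)
  have c2 : ∀ x, s' < x → χ x = 0 := fun x hx =>
    max_eq_left ((min_le_right _ _).trans (div_nonpos_of_nonpos_of_nonneg (by linarith) (by linarith)))
  have c3 : ∀ x, x ≤ s → χ x = 1 := fun x hx => by
    have : 1 ≤ (s' - x) / (s' - s) := (one_le_div (by linarith)).2 (by linarith)
    simp [χ, min_eq_left this]
  have h := hK ⟨fun w => (f w : ℂ), by fun_prop⟩ χ c2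
  simp only [ContinuousMap.coe_mk, ← Complex.ofReal_mul, Complex.norm_real, integral_complex_ofReal,
    Real.norm_eq_abs] at h
  have g0 : ∀ (w : ℂ) x, 0 ≤ f w * χ x := fun w x => mul_nonneg (f2 w).1 (c0 x)
  simp only [abs_of_nonneg (g0 _ _)] at h
  rw [abs_of_nonneg (integral_nonneg fun u => g0 _ _)] at h
  have m1 : MeasurableSet {u | z u ∈ A ∧ ‖z u‖ ^ 2 ≤ s} :=
    ((hA.preimage hz).inter (isClosed_le (f := fun u => ‖z u‖ ^ 2) (g := fun _ => s) (by fun_prop)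
      continuous_const)).measurableSet
  have m2 : MeasurableSet {u : Sp n | u.1 o ∈ U} := (hU.preimage (by fun_prop)).measurableSet
  have i1 : μ.real {u | z u ∈ A ∧ ‖z u‖ ^ 2 ≤ s} ≤ ∫ u, f (z u) * χ (‖z u‖ ^ 2) ∂μ := by
    rw [← integral_indicator_one m1]
    refine integral_mono ((integrable_const _).indicator m1) (ci _ (by fun_prop)) fun u => ?_
    by_cases hu : u ∈ {u | z u ∈ A ∧ ‖z u‖ ^ 2 ≤ s}
    · rw [indicator_of_mem hu]
      simp [c3 _ hu.2, f1 hu.1]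
    · rw [indicator_of_notMem hu]
      exact g0 _ _
  have i2 : ∫ u : Sp n, f (u.1 o) * χ (‖u.1 o‖ ^ 2) ∂sg n ≤ (sg n).real {u | u.1 o ∈ U} := by
    rw [← integral_indicator_one m2]
    refine integral_mono (ci _ (by fun_prop)) ((integrable_const _).indicator m2) fun u => ?_
    by_cases hu : u ∈ {u : Sp n | u.1 o ∈ U}
    · rw [indicator_of_mem hu]
      exact mul_le_one₀ (f2 _).2 (c0 _) (c1 _)
    · rw [indicator_of_notMem hu]
      have : f (u.1 o) = 0 := f0 hu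
      simp [this]
  have := (i1.trans h).trans (mul_le_mul_of_nonneg_left i2 K0)
  rw [← ENNReal.ofReal_le_ofReal_iff (by positivity), ENNReal.ofReal_mul K0, ofReal_measureReal,
    ofReal_measureReal] at this
  exact this

theorem dom (hz : Continuous z) (z1 : ∀ u, ‖z u‖ ≤ 1) (H : Hyp μ z o) {s : ℝ} (s0 : 0 < s) (s1 : s < 1) :
    ∃ K : ℝ≥0∞, K ≠ ∞ ∧ ∀ B : Set ℂ, MeasurableSet B →
      μ {u | z u ∈ B ∧ ‖z u‖ ^ 2 ≤ s} ≤ K * sg n {u | u.1 o ∈ B} := by
  obtain ⟨K, K0, hK⟩ := dom0 hz z1 H s0 s1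
  refine ⟨K, K0, fun B hB => ?_⟩
  have mz := hz.measurable
  have mo : Measurable fun u : Sp n => u.1 o := by fun_prop
  have ms : MeasurableSet {u | ‖z u‖ ^ 2 ≤ s} := (isClosed_le (by fun_prop) continuous_const).measurableSet
  let ν : Measure ℂ := (μ.restrict {u | ‖z u‖ ^ 2 ≤ s}).map z
  let ρ : Measure ℂ := (sg n).map fun u => u.1 o
  have e1 : ∀ A, MeasurableSet A → ν A = μ {u | z u ∈ A ∧ ‖z u‖ ^ 2 ≤ s} := fun A hA => by
    rw [Measure.map_apply mz hA, Measure.restrict_apply (mz hA)]; rfl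
  have e2 : ∀ A, MeasurableSet A → ρ A = sg n {u | u.1 o ∈ A} := fun A hA => by
    rw [Measure.map_apply mo hA]; rfl
  have : IsFiniteMeasure ν := Measure.isFiniteMeasure_map _ _
  have : IsFiniteMeasure ρ := Measure.isFiniteMeasure_map _ _
  rw [← e1 B hB, ← e2 B hB]
  refine ENNReal.le_of_forall_pos_le_add fun ε hε _ => ?_
  obtain ⟨δ, δ0, hδ⟩ : ∃ δ : ℝ≥0∞, δ ≠ 0 ∧ K * δ + δ ≤ ε := by
    have k1 : K + 1 ≠ ∞ := ENNReal.add_ne_top.2 ⟨K0, ENNReal.one_ne_top⟩
    refine ⟨ε / (K + 1), ?_, ?_⟩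
    · exact (ENNReal.div_pos (by simpa using hε.ne') k1).ne'
    · rw [← add_one_mul, ENNReal.mul_div_cancel (by simp) k1]
  obtain ⟨A, h1, h2, h3, h4⟩ := hB.exists_isCompact_isClosed_lt_add (μ := ν) (measure_ne_top _ _) δ0
  obtain ⟨U, h5, h6, h7⟩ := B.exists_isOpen_le_add ρ δ0
  have := hK A U h3 h6 (h1.trans h5)
  rw [← e1 A h3.measurableSet, ← e2 U h6.measurableSet] at this
  calc ν B ≤ ν A + δ := h4.le
    _ ≤ K * (ρ B + δ) + δ := by gcongr; exact this.trans (by gcongr)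
    _ = K * ρ B + (K * δ + δ) := by rw [mul_add, add_assoc]
    _ ≤ _ := by gcongr

theorem pre0 (i : Fin n) {N : Set ℂ} (hm : MeasurableSet N) (hN : volume N = 0) :
    volume {y : V n | y i ∈ N} = 0 := by
  let P : V n →ₗ[ℝ] ℂ := ((EuclideanSpace.proj i : V n →L[ℂ] ℂ).restrictScalars ℝ : V n →L[ℝ] ℂ)
  have hs : Function.Surjective P := fun c => ⟨EuclideanSpace.single i c, by simp [P]⟩
  obtain ⟨c, -, hc⟩ := P.exists_map_addHaar_eq_smul_addHaar (volume : Measure (V n)) (volume : Measure ℂ) hs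
  have : (volume : Measure (V n)).map P N = 0 := by rw [hc, Measure.smul_apply, hN, smul_zero]
  rwa [Measure.map_apply P.continuous_of_finiteDimensional.measurable hm] at this

/-- the law of a coordinate under surface measure is absolutely continuous -/
theorem sig_ac (o o' : Fin n) (oo : o ≠ o') {N : Set ℂ} (hN : volume N = 0) :
    sg n {u | u.1 o ∈ N} = 0 := by
  wlog hm : MeasurableSet N
  · exact measure_mono_null (fun u hu => subset_toMeasurable volume N hu)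
      (this o o' oo (N := toMeasurable volume N) (by rwa [measure_toMeasurable]) (measurableSet_toMeasurable _ _))
  rw [Measure.toSphere_apply' _ (show MeasurableSet {u : Sp n | u.1 o ∈ N} from
    (by fun_prop : Measurable fun u : Sp n => u.1 o) hm)]
  let P : V n →L[ℝ] ℂ := (EuclideanSpace.proj o : V n →L[ℂ] ℂ).restrictScalars ℝ
  have hP : ∀ y, P y = y o := fun _ => rfl
  let L : V n →L[ℝ] V n :=
    ((EuclideanSpace.proj o : V n →L[ℂ] ℂ).smulRight (EuclideanSpace.single o (1 : ℂ))).restrictScalars ℝ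
  have hL : ∀ y, L y = y o • EuclideanSpace.single o (1 : ℂ) := fun _ => rfl
  let g : V n → ℝ := fun y => √(‖y‖ ^ 2 - ‖P y‖ ^ 2) / √(1 - ‖P y‖ ^ 2)
  let Φ : V n → V n := fun y => y + (g y - 1) • L y
  let Y : Set (V n) := {y | y o ∈ N ∧ ‖y o‖ < 1 ∧ y o' ≠ 0}
  have nr : ∀ y : V n, y o' ≠ 0 → 0 < ‖y‖ ^ 2 - ‖P y‖ ^ 2 := fun y hy => by
    rw [EuclideanSpace.norm_sq_eq, ← Finset.add_sum_erase _ _ (Finset.mem_univ o), hP, add_sub_cancel_left]
    exact Finset.sum_pos' (fun _ _ => sq_nonneg _) ⟨o', by simp [oo.symm], by positivity⟩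
  have dΦ : DifferentiableOn ℝ Φ Y := fun y hy => by
    refine DifferentiableAt.differentiableWithinAt ?_
    have a1 := (nr y hy.2.2).ne'
    have a2 : (1 - ‖P y‖ ^ 2) ≠ 0 := by
      have : ‖P y‖ < 1 := hy.2.1
      have := norm_nonneg (P y)
      nlinarith
    have a3 : √(1 - ‖P y‖ ^ 2) ≠ 0 := by
      rw [Real.sqrt_ne_zero']
      have : ‖P y‖ < 1 := hy.2.1
      have := norm_nonneg (P y)
      nlinarith
    have b1 : DifferentiableAt ℝ (fun y : V n => ‖y‖ ^ 2) y := differentiableAt_id.norm_sq ℝ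
    have b2 : DifferentiableAt ℝ (fun y : V n => ‖P y‖ ^ 2) y := P.differentiableAt.norm_sq ℝ
    have b4 : DifferentiableAt ℝ (fun y : V n => √(‖y‖ ^ 2 - ‖P y‖ ^ 2)) y := (b1.sub b2).sqrt a1
    have b5 : DifferentiableAt ℝ (fun y : V n => √(1 - ‖P y‖ ^ 2)) y := (b2.const_sub 1).sqrt a2
    have b3 : DifferentiableAt ℝ g y := by
      have := b4.fun_mul (b5.fun_inv a3)
      simpa only [g, div_eq_mul_inv] using this
    exact differentiableAt_id.add ((b3.sub_const 1).smul L.differentiableAt)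
  have Y0 : volume Y = 0 := measure_mono_null (fun y hy => hy.1) (pre0 o hm hN)
  have I0 := addHaar_image_eq_zero_of_differentiableOn_of_addHaar_eq_zero volume dΦ Y0
  rw [measure_mono_null (fun x hx => ?_) (measure_union_null I0
    (pre0 o' (measurableSet_singleton 0) (N := {0}) (by simp))), mul_zero]
  obtain ⟨r, hr, _, ⟨u, hu, rfl⟩, rfl⟩ := hx
  have hu : u.1 o ∈ N := hu
  by_cases h : u.1 o' = 0
  · right
    simp [h]
  left
  have k1 : ‖u.1‖ = 1 := norm_eq_of_mem_sphere u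
  have k2 := nr u.1 h
  rw [k1, one_pow, hP] at k2
  have k3 : ‖u.1 o‖ < 1 := by nlinarith [norm_nonneg (u.1 o)]
  let y : V n := r • u.1 + (1 - r) • L u.1
  have y1 : ∀ i, y i = r * u.1 i + if i = o then (1 - r) * u.1 o else 0 := fun i => by
    simp only [y, hL, PiLp.add_apply, PiLp.smul_apply, PiLp.single_apply]
    split_ifs <;> simp
  have y2 : y o = u.1 o := by rw [y1, if_pos rfl]; ring
  refine ⟨y, ⟨by rwa [y2], by rwa [y2], ?_⟩, ?_⟩
  · rw [y1, if_neg oo.symm, add_zero]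
    exact mul_ne_zero (Complex.ofReal_ne_zero.2 hr.1.ne') h
  have y3 : ‖y‖ ^ 2 - ‖P y‖ ^ 2 = r ^ 2 * (1 - ‖u.1 o‖ ^ 2) := by
    rw [EuclideanSpace.norm_sq_eq, ← Finset.add_sum_erase _ _ (Finset.mem_univ o), hP, add_sub_cancel_left]
    have := EuclideanSpace.norm_sq_eq u.1
    rw [k1, ← Finset.add_sum_erase _ _ (Finset.mem_univ o)] at this
    have e : ∀ i ∈ Finset.univ.erase o, ‖y i‖ ^ 2 = r ^ 2 * ‖u.1 i‖ ^ 2 := fun i hi => by
      rw [y1, if_neg (Finset.ne_of_mem_erase hi), add_zero, norm_mul, mul_pow, Complex.norm_real,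
        Real.norm_eq_abs, sq_abs]
    rw [Finset.sum_congr rfl e, ← Finset.mul_sum]
    congr 1
    linarith
  have y4 : g y = r := by
    show √(‖y‖ ^ 2 - ‖P y‖ ^ 2) / √(1 - ‖P y‖ ^ 2) = r
    rw [y3, hP, y2, Real.sqrt_mul (sq_nonneg r), Real.sqrt_sq hr.1.le, mul_div_assoc, div_self (Real.sqrt_ne_zero'.2 k2),
      mul_one]
  show y + (g y - 1) • L y = r • u.1
  have y5 : L y = L u.1 := by rw [hL, hL, y2]
  rw [y4, y5]
  simp only [y]
  module

end Pool.Agent.H61.AbCont
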