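import Mathlib

set_option autoImplicit false
open Set Filter Topology

namespace Pool.Agent.H61.Pencil

variable {𝕜 V : Type} [RCLike 𝕜]

/-- a finite set of scalars with dense multiplicative semigroup -/
theorem mulDense (𝕜 : Type) [RCLike 𝕜] : ∃ E : Set 𝕜, E.Nonempty ∧ E.Finite ∧ (∀ c ∈ E, c ≠ 0) ∧
    ∀ z : 𝕜, z ∈ closure (Subsemigroup.closure E : Set 𝕜) := by
  let ex : ℝ → 𝕜 := fun a => (Real.exp a : 𝕜)
  let e : ℝ → 𝕜 := fun θ => (Real.cos θ : 𝕜) + (Real.sin θ : 𝕜) * RCLike.I
  let E : Set 𝕜 := ex '' {√2, 1, -√2, -1} ∪ e '' {1, -1} ∪ {-1}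
  let T := (Subsemigroup.closure E).topologicalClosure
  have hT : ∀ z ∈ E, z ∈ T := fun z hz => Subsemigroup.le_topologicalClosure _ (Subsemigroup.subset_closure hz)
  have Tc : IsClosed (T : Set 𝕜) := Subsemigroup.isClosed_topologicalClosure _
  have exadd : ∀ a b, ex (a + b) = ex a * ex b := fun a b => by simp [ex, Real.exp_add]
  have k1 : ∀ a ∈ AddSubgroup.closure {√2, 1}, ex a ∈ T := fun a ha => by
    induction ha using AddSubgroup.closure_induction_left with
    | zero =>
      have := mul_mem (hT (ex 1) (by simp [E])) (hT (ex (-1)) (by simp [E]))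
      rwa [← exadd, add_neg_cancel] at this
    | add_left b hb a _ ih =>
      rw [exadd]
      exact mul_mem (hT _ (by rcases hb with rfl | rfl <;> simp [E])) ih
    | neg_add_cancel b hb a _ ih =>
      rw [exadd]
      exact mul_mem (hT _ (by rcases hb with rfl | rfl <;> simp [E])) ih
  have k2 : ∀ a : ℝ, ex a ∈ T := fun a => by
    have hd : Dense (AddSubgroup.closure {√2, 1} : Set ℝ) := dense_addSubgroupClosure_pair_iff.2 (by
      simpa using irrational_sqrt_two : Irrational (√2 / 1))
    have hc : IsClosed (ex ⁻¹' T) := Tc.preimage (by fun_prop)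
    exact hc.closure_subset_iff.2 (fun a ha => k1 a ha) (hd a)
  have k3 : ∀ r : ℝ, 0 < r → (r : 𝕜) ∈ T := fun r hr => by
    have := k2 (Real.log r)
    simpa only [ex, Real.exp_log hr] using this
  have k4 : ∀ r : ℝ, 0 ≤ r → (r : 𝕜) ∈ T := fun r hr => by
    have hc : IsClosed ((fun r : ℝ => (r : 𝕜)) ⁻¹' T) := Tc.preimage (by fun_prop)
    have : (r : ℝ) ∈ closure (Ioi (0 : ℝ)) := by rw [closure_Ioi]; exact hr
    exact hc.closure_subset_iff.2 (fun a ha => k3 a ha) this
  have k5 : ∀ r : ℝ, (r : 𝕜) ∈ T := fun r => by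
    rcases le_total 0 r with h | h
    · exact k4 r h
    · have := mul_mem (hT (-1) (by simp [E])) (k4 (-r) (by linarith))
      simpa using this
  have hz : ∀ z : 𝕜, z ∈ T := fun z => by
    rcases RCLike.I_mul_I (K := 𝕜) with hI | hI
    · rw [← RCLike.re_add_im z, hI]
      simpa using k5 _
    have eadd : ∀ a b, e (a + b) = e a * e b := fun a b => by
      simp only [e, Real.cos_add, Real.sin_add]
      push_cast
      linear_combination (-(Real.sin a : 𝕜) * Real.sin b) * hI
    have j1 : ∀ a ∈ AddSubgroup.closure {1, 2 * Real.pi}, e a ∈ T := fun a ha => by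
      induction ha using AddSubgroup.closure_induction_left with
      | zero => simpa [e] using k5 1
      | add_left b hb a _ ih =>
        rw [eadd]
        rcases hb with rfl | rfl
        · exact mul_mem (hT _ (by simp [E])) ih
        · simpa [e] using ih
      | neg_add_cancel b hb a _ ih =>
        rw [eadd]
        rcases hb with rfl | rfl
        · exact mul_mem (hT _ (by simp [E])) ih
        · simpa [e] using ih
    have j2 : ∀ a : ℝ, e a ∈ T := fun a => by
      have hd : Dense (AddSubgroup.closure {1, 2 * Real.pi} : Set ℝ) := dense_addSubgroupClosure_pair_iff.2 (by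
        have := (irrational_pi.ratCast_mul (q := 2) (by norm_num)).inv
        simpa using this)
      have hc : IsClosed (e ⁻¹' T) := Tc.preimage (by fun_prop)
      exact hc.closure_subset_iff.2 (fun a ha => j1 a ha) (hd a)
    let z' : ℂ := ⟨RCLike.re z, RCLike.im z⟩
    have h1 : z = (‖z'‖ : 𝕜) * e z'.arg := by
      have a1 := Complex.norm_mul_cos_arg z'
      have a2 := Complex.norm_mul_sin_arg z'
      simp only [e]
      rw [mul_add, ← mul_assoc, ← RCLike.ofReal_mul, ← RCLike.ofReal_mul, a1, a2]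
      exact (RCLike.re_add_im z).symm
    rw [h1]
    exact mul_mem (k5 _) (j2 _)
  refine ⟨E, ⟨-1, by simp [E]⟩, ?_, ?_, hz⟩
  · exact (((toFinite _).image _).union ((toFinite _).image _)).union (toFinite _)
  · rintro c ((⟨a, -, rfl⟩ | ⟨a, ha, rfl⟩) | rfl)
    · simp [ex]
    · intro h
      have := congrArg RCLike.re h
      simp only [e, map_add, RCLike.ofReal_re, RCLike.re_ofReal_mul, RCLike.I_re, mul_zero, add_zero, map_zero] at this
      have h1 := Real.cos_one_pos
      rcases ha with rfl | rfl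
      · linarith
      · rw [Real.cos_neg] at this; linarith
    · simp

/-- a finite subset of a subspace generating a dense additive monoid -/
theorem addDense [NormedAddCommGroup V] [NormedSpace 𝕜 V] [FiniteDimensional 𝕜 V] (U : Submodule 𝕜 V) :
    ∃ N : Set V, N.Finite ∧ N ⊆ U ∧ (U : Set V) ⊆ closure (AddSubmonoid.closure N : Set V) := by
  let b := Module.finBasis 𝕜 U
  let A : Set 𝕜 := {(√2 : 𝕜), 1, -(√2 : 𝕜), -1}
  let A' : Set 𝕜 := {(√2 : 𝕜) * RCLike.I, RCLike.I, -(√2 : 𝕜) * RCLike.I, -RCLike.I}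
  let N : Set V := image2 (fun (c : 𝕜) i => c • (b i : V)) (A ∪ A') univ
  let T := (AddSubmonoid.closure N).topologicalClosure
  have hT : ∀ z ∈ N, z ∈ T := fun z hz => AddSubmonoid.le_topologicalClosure _ (AddSubmonoid.subset_closure hz)
  have Tc : IsClosed (T : Set V) := AddSubmonoid.isClosed_topologicalClosure _
  have hd : Dense (AddSubgroup.closure {√2, 1} : Set ℝ) := dense_addSubgroupClosure_pair_iff.2 (by
      simpa using irrational_sqrt_two : Irrational (√2 / 1))
  have k : ∀ z : 𝕜, (∀ a ∈ ({√2, 1, -√2, -1} : Set ℝ), (a : 𝕜) * z ∈ A ∪ A') → ∀ (a : ℝ) i,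
      ((a : 𝕜) * z) • (b i : V) ∈ T := fun z hz a i => by
    have hc : IsClosed ((fun a : ℝ => ((a : 𝕜) * z) • (b i : V)) ⁻¹' T) := Tc.preimage (by fun_prop)
    refine hc.closure_subset_iff.2 (fun a ha => ?_) (hd a)
    induction ha using AddSubgroup.closure_induction_left with
    | zero => simp
    | add_left c hc a _ ih =>
      have : (((c + a : ℝ) : 𝕜) * z) • (b i : V) = ((c : 𝕜) * z) • (b i : V) + ((a : 𝕜) * z) • (b i : V) := by
        push_cast; module
      show (((c + a : ℝ) : 𝕜) * z) • (b i : V) ∈ T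
      rw [this]
      exact add_mem (hT _ ⟨_, hz c (by rcases hc with rfl | rfl <;> simp), i, trivial, rfl⟩) ih
    | neg_add_cancel c hc a _ ih =>
      have : (((-c + a : ℝ) : 𝕜) * z) • (b i : V) = (((-c : ℝ) : 𝕜) * z) • (b i : V) + ((a : 𝕜) * z) • (b i : V) := by
        push_cast; module
      show (((-c + a : ℝ) : 𝕜) * z) • (b i : V) ∈ T
      rw [this]
      exact add_mem (hT _ ⟨_, hz (-c) (by rcases hc with rfl | rfl <;> simp), i, trivial, rfl⟩) ih
  have k1 := k 1 (by rintro a (rfl | rfl | rfl | rfl) <;> simp [A])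
  have k2 := k RCLike.I (by rintro a (rfl | rfl | rfl | rfl) <;> simp [A'])
  refine ⟨N, ((toFinite _).union (toFinite _)).image2 _ (toFinite _), ?_, fun u hu => ?_⟩
  · rintro _ ⟨c, -, i, -, rfl⟩
    exact U.smul_mem c (b i).2
  · have : (u : V) = ∑ i, b.repr ⟨u, hu⟩ i • (b i : V) := by
      have h := congrArg U.subtype (b.sum_repr ⟨u, hu⟩).symm
      rw [map_sum] at h
      simpa only [map_smul, Submodule.subtype_apply] using h
    rw [this]
    refine (sum_mem fun i _ => ?_ : _ ∈ T)
    rw [← RCLike.re_add_im (b.repr ⟨u, hu⟩ i), add_smul]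
    exact add_mem (by simpa using k1 _ i) (k2 _ i)

end Pool.Agent.H61.Pencil
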