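import Pool.Agent.H61.PencilA

set_option autoImplicit false
open Set Filter Topology MeasureTheory

namespace Pool.Agent.H61.Pencil

theorem fin {g : Set ℝ} (hg : g.Finite) (h : ∀ x ∈ g, 1 ≤ x) (n : ℕ) :
    {x ∈ AddSubmonoid.closure g | x < n}.Finite := by
  have h0 : ∀ x ∈ AddSubmonoid.closure g, 0 ≤ x := fun x hx =>
    AddSubmonoid.closure_le.2 (show g ⊆ AddSubmonoid.nonneg ℝ from
      fun x hx => zero_le_one.trans (h x hx)) hx
  induction n with
  | zero => exact finite_empty.subset fun x hx => (h0 x hx.1).not_gt (by simpa using hx.2)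
  | succ n ih =>
    refine ((hg.image2 (· + ·) ih).insert 0).subset fun x ⟨h1, h2⟩ => ?_
    induction h1 using AddSubmonoid.closure_induction_left with
    | zero => exact Or.inl rfl
    | add_left a ha b hb _ =>
      exact Or.inr ⟨a, ha, b, ⟨hb, by push_cast at h2; linarith [h a ha]⟩, rfl⟩

theorem neg (𝕜 V : Type) [RCLike 𝕜] [NormedAddCommGroup V] [NormedSpace 𝕜 V]
    [FiniteDimensional 𝕜 V] (U : Submodule 𝕜 V) (hU : Module.finrank 𝕜 U + 2 ≤ Module.finrank 𝕜 V)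
    {ι : Type} [Finite ι] (w : ι → V) (hw : ∀ j, w j ∉ U) :
    ∃ G : Set (V ≃ₗ[𝕜] V), G.Finite ∧ G.Nonempty ∧ (∀ g ∈ G, ∀ g' ∈ G, g * g' = g' * g) ∧
    (∃ v, ∀ j, ∀ x ∈ U ⊔ Submodule.span 𝕜 {w j}, x ∈ closure {x | ∃ s ∈ Subsemigroup.closure G, s v = x}) ∧
    ∀ y, interior (closure {x | ∃ s ∈ Subsemigroup.closure G, s y = x}) = ∅ := by
  have hQ : 2 ≤ Module.finrank 𝕜 (V ⧸ U) := by
    have := U.finrank_quotient_add_finrank
    omega
  have : Nontrivial (V ⧸ U) := Module.nontrivial_of_finrank_pos (R := 𝕜) (by omega)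
  obtain ⟨x0', hx0⟩ := exists_ne (0 : V ⧸ U)
  obtain ⟨x0, rfl⟩ := U.mkQ_surjective x0'
  obtain ⟨φ', hφ⟩ := Module.exists_dual_forall_apply_ne_zero (K := 𝕜)
    (fun o : Option ι => o.elim (U.mkQ x0) fun j => U.mkQ (w j)) (by
      rintro (_ | j)
      · exact hx0
      · exact fun h => hw j ((Submodule.Quotient.mk_eq_zero U).1 h))
  obtain ⟨u', hu, u0⟩ := Submodule.exists_mem_ne_zero_of_ne_bot
    (LinearMap.ker_ne_bot_of_finrank_lt (f := φ') (by rw [Module.finrank_self]; omega))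
  obtain ⟨ψ0', h0⟩ := Module.Projective.exists_dual_eq_one 𝕜 u0
  obtain ⟨u, rfl⟩ := U.mkQ_surjective u'
  let φ : V →ₗ[𝕜] 𝕜 := φ' ∘ₗ U.mkQ
  let ψ0 : V →ₗ[𝕜] 𝕜 := ψ0' ∘ₗ U.mkQ
  have φU : ∀ n ∈ U, φ n = 0 := fun n hn => by
    simp only [φ, LinearMap.comp_apply, Submodule.mkQ_apply]
    rw [(Submodule.Quotient.mk_eq_zero U).2 hn, map_zero]
  have ψ0U : ∀ n ∈ U, ψ0 n = 0 := fun n hn => by
    simp only [ψ0, LinearMap.comp_apply, Submodule.mkQ_apply]
    rw [(Submodule.Quotient.mk_eq_zero U).2 hn, map_zero]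
  replace h0 : ψ0 u = 1 := h0
  have u1 : φ u = 0 := hu
  have x1 : φ x0 ≠ 0 := hφ none
  have w0 : ∀ j, φ (w j) ≠ 0 := fun j => hφ (some j)
  clear_value φ ψ0
  obtain ⟨M, hM⟩ := (finite_range fun j => 1 - RCLike.re (ψ0 (w j) / φ (w j))).bddAbove
  set ψ := ψ0 + (M : 𝕜) • φ with hψ
  have u2 : ψ u = 1 := by simp [ψ, h0, u1]
  have ψU : ∀ n ∈ U, ψ n = 0 := fun n hn => by simp [ψ, ψ0U n hn, φU n hn]
  obtain ⟨v, v1, v2⟩ : ∃ v, φ v = 1 ∧ ψ v = 0 :=
    ⟨(φ x0)⁻¹ • x0 - ψ ((φ x0)⁻¹ • x0) • u, by simp [u1, x1], by simp [u2]⟩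
  set h : V → ℝ := fun y => RCLike.re (ψ y / φ y)
  have w1 : ∀ x ∈ range fun j => h (w j), 1 ≤ x := by
    rintro _ ⟨j, rfl⟩
    have := hM ⟨j, rfl⟩
    simp only [h, ψ, LinearMap.add_apply, LinearMap.smul_apply, smul_eq_mul, add_div,
      mul_div_cancel_right₀ _ (w0 j), map_add, RCLike.ofReal_re] at this ⊢
    linarith
  have : ∀ a, φ a ≠ 0 → ∃ g : V ≃ₗ[𝕜] V, ∀ y, g y = φ a • y + φ y • a - (φ a * φ y) • v :=
    fun a ha => ⟨.ofInjectiveEndo (φ a • LinearMap.id + φ.smulRight a - φ.smulRight (φ a • v))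
      ((injective_iff_map_eq_zero _).2 fun y hy => by
        have h1 := congrArg φ hy
        simp [v1, ha] at h1
        simpa [h1, ha] using hy), fun y => by simp [smul_smul, mul_comm]⟩
  choose! P hP using this
  obtain ⟨E, E0, E1, E2, E3⟩ := mulDense 𝕜
  obtain ⟨N, N1, N2, N3⟩ := addDense U
  set W := range w ∪ (fun c : 𝕜 => c • v) '' E ∪ (fun n => v + n) '' N
  have hE : ∀ c ∈ E, φ (c • v) ≠ 0 := fun c hc => by simpa [v1] using E2 c hc
  have hN : ∀ n ∈ N, φ (v + n) = 1 := fun n hn => by rw [map_add, v1, φU n (N2 hn), add_zero]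
  have hN' : ∀ n ∈ N, φ (v + n) ≠ 0 := fun n hn => by rw [hN n hn]; exact one_ne_zero
  have hW : ∀ a ∈ W, φ a ≠ 0 := by
    rintro _ ((⟨j, rfl⟩ | ⟨c, hc, rfl⟩) | ⟨n, hn, rfl⟩)
    exacts [w0 j, hE c hc, hN' n hn]
  set S := Subsemigroup.closure (P '' W)
  set Λ := AddSubmonoid.closure (range fun j => h (w j))
  set O := {x | ∃ s ∈ S, s v = x} with hO
  have O1 : ∀ j, w j ∈ O := fun j => ⟨P (w j), Subsemigroup.subset_closure ⟨_, Or.inl (Or.inl ⟨j, rfl⟩), rfl⟩, by
    simp [hP _ (w0 j), v1]⟩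
  have O2 : ∀ y ∈ O, ∀ n ∈ N, y + φ y • n ∈ O := by
    rintro _ ⟨s, hs, rfl⟩ n hn
    refine ⟨P (v + n) * s, mul_mem (Subsemigroup.subset_closure ⟨_, Or.inr ⟨n, hn, rfl⟩, rfl⟩) hs, ?_⟩
    rw [LinearEquiv.mul_apply, hP _ (hN' n hn), hN n hn]
    module
  have O3 : ∀ y ∈ O, ∀ c ∈ E, c • y ∈ O := by
    rintro _ ⟨s, hs, rfl⟩ c hc
    refine ⟨P (c • v) * s, mul_mem (Subsemigroup.subset_closure ⟨_, Or.inl (Or.inr ⟨c, hc, rfl⟩), rfl⟩) hs, ?_⟩
    rw [LinearEquiv.mul_apply, hP _ (hE c hc)]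
    simp only [map_smul, v1, smul_eq_mul, mul_one]
    module
  have O2' : ∀ j, ∀ n ∈ AddSubmonoid.closure N, w j + φ (w j) • n ∈ O := fun j n hn => by
    have hNU : AddSubmonoid.closure N ≤ U.toAddSubmonoid := AddSubmonoid.closure_le.2 N2
    induction hn using AddSubmonoid.closure_induction_left with
    | zero => simpa using O1 j
    | add_left a ha b hb ih =>
      have := O2 _ ih a ha
      rw [map_add, map_smul, φU b (hNU hb), smul_zero, add_zero] at this
      convert this using 1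
      module
  have C2 : ∀ j, ∀ n ∈ U, w j + φ (w j) • n ∈ closure O := fun j n hn => by
    have hc : IsClosed ((fun n => w j + φ (w j) • n) ⁻¹' closure O) := isClosed_closure.preimage (by fun_prop)
    exact hc.closure_subset_iff.2 (fun n hn => subset_closure (O2' j n hn)) (N3 hn)
  have C3 : ∀ y ∈ closure O, ∀ c : 𝕜, c • y ∈ closure O := fun y hy c => by
    have h1 : ∀ c ∈ Subsemigroup.closure E, ∀ y ∈ O, c • y ∈ O := fun c hc => by
      induction hc using Subsemigroup.closure_induction with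
      | mem c hc => exact fun y hy => O3 y hy c hc
      | mul a b _ _ ha hb => exact fun y hy => by rw [mul_smul]; exact ha _ (hb y hy)
    have h2 : ∀ c ∈ Subsemigroup.closure E, ∀ y ∈ closure O, c • y ∈ closure O := fun c hc y hy =>
      (isClosed_closure.preimage (by fun_prop : Continuous fun y : V => c • y)).closure_subset_iff.2
        (fun y hy => subset_closure (h1 c hc y hy)) hy
    exact (isClosed_closure.preimage (by fun_prop : Continuous fun c : 𝕜 => c • y)).closure_subset_iff.2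
      (fun c hc => h2 c hc y hy) (E3 c)
  refine ⟨P '' W, (((finite_range w).union (E1.image _)).union (N1.image _)).image _,
    (Nonempty.inl (Nonempty.inr (E0.image _))).image _, ?_,
    ⟨v, fun j x hx => ?_⟩, fun y => ?_⟩
  · rintro _ ⟨a, ha, rfl⟩ _ ⟨b, hb, rfl⟩
    ext y
    simp only [LinearEquiv.mul_apply, hP _ (hW a ha), hP _ (hW b hb), map_sub, map_add, map_smul,
      v1, smul_eq_mul]
    module
  · obtain ⟨n, hn, z, hz, rfl⟩ := Submodule.mem_sup.1 hx
    obtain ⟨c, rfl⟩ := Submodule.mem_span_singleton.1 hz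
    have key : ∀ c : 𝕜, c ≠ 0 → n + c • w j ∈ closure O := fun c hc => by
      have := C3 _ (C2 j ((c * φ (w j))⁻¹ • n) (U.smul_mem _ hn)) c
      have w0 := w0 j
      convert this using 1
      rw [smul_add, smul_smul, smul_smul, mul_inv_cancel₀ (mul_ne_zero hc w0), one_smul, add_comm]
    have hc : IsClosed ((fun c : 𝕜 => n + c • w j) ⁻¹' closure O) := isClosed_closure.preimage (by fun_prop)
    have hd : Dense ({0}ᶜ : Set 𝕜) := dense_compl_singleton 0
    exact hc.closure_subset_iff.2 (fun c h => key c h) (hd c)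
  have key : ∀ s ∈ S, ∃ l ∈ Λ, ∀ y, (φ y = 0 → φ (s y) = 0) ∧
      (φ y ≠ 0 → φ (s y) ≠ 0 ∧ h (s y) = h y + l) := fun s hs => by
    induction hs using Subsemigroup.closure_induction with
    | mem s hs =>
      obtain ⟨a, ha, rfl⟩ := hs
      have h1 := hW a ha
      refine ⟨h a, ?_, fun y => ⟨fun h => by simp [hP _ h1, h], fun h2 => ⟨by
        simp [hP _ h1, v1, h1, h2], ?_⟩⟩⟩
      · rcases ha with (⟨j, rfl⟩ | ⟨a, -, rfl⟩) | ⟨n, hn, rfl⟩
        · exact AddSubmonoid.subset_closure ⟨j, rfl⟩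
        · simp [h, v2]
        · simp [h, v2, ψU n (N2 hn)]
      · simp only [h, hP _ h1, map_sub, map_add, map_smul, v1, v2, smul_eq_mul]
        rw [← map_add, mul_one, add_sub_cancel_left]
        congr 1; field_simp; ring
    | mul a b _ _ h1 h2 =>
      obtain ⟨l, l0, h1⟩ := h1
      obtain ⟨k, k0, h2⟩ := h2
      refine ⟨k + l, add_mem k0 l0, fun y => ⟨fun h => (h1 _).1 ((h2 y).1 h), fun h => ?_⟩⟩
      have := (h1 _).2 ((h2 y).2 h).1
      exact ⟨this.1, by rw [← add_assoc, ← ((h2 y).2 h).2]; exact this.2⟩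
  have hF := fin (finite_range _) w1
  have c1 := φ.continuous_of_finiteDimensional
  have c2 := ψ.continuous_of_finiteDimensional
  have hC : IsClosed {x | φ x = 0 ∨ h x - h y ∈ Λ} := by
    refine isOpen_compl_iff.1 (isOpen_iff_mem_nhds.2 fun x hx => ?_)
    simp only [mem_compl_iff, mem_ofPred_eq, not_or] at hx
    obtain ⟨n, hn⟩ := exists_nat_gt (h x - h y)
    have h1 : ContinuousAt (fun x => h x - h y) x :=
      (RCLike.continuous_re.continuousAt.comp (c2.continuousAt.div c1.continuousAt hx.1)).sub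
        continuousAt_const
    filter_upwards [c1.continuousAt.eventually_ne hx.1, h1.eventually (gt_mem_nhds hn),
      h1.eventually_mem ((hF n).isClosed.isOpen_compl.mem_nhds fun h => hx.2 h.1)] with z a b c
    exact fun h => h.elim a fun h => c ⟨h, b⟩
  refine eq_empty_of_forall_notMem fun x hx => ?_
  replace hx := interior_mono (closure_minimal (t := {x | φ x = 0 ∨ h x - h y ∈ Λ}) (by
    rintro _ ⟨s, hs, rfl⟩
    obtain ⟨l, l0, h1⟩ := key s hs
    by_cases h2 : φ y = 0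
    · exact Or.inl ((h1 y).1 h2)
    · exact Or.inr (by simpa [((h1 y).2 h2).2] using l0)) hC) hx
  obtain ⟨z, hz, z0⟩ : ∃ z ∈ interior {x | φ x = 0 ∨ h x - h y ∈ Λ}, φ z ≠ 0 := by
    by_contra! hc
    refine x1 (show x0 ∈ LinearMap.ker φ from ?_)
    rw [(LinearMap.ker φ).eq_top_of_nonempty_interior' ⟨x, interior_maximal hc isOpen_interior hx⟩]
    trivial
  obtain ⟨n, hn⟩ := exists_nat_gt (h z - h y)
  have h1 : Tendsto (fun t : ℝ => z + (((t - (h z - h y) : ℝ) : 𝕜) * φ z) • u) (𝓝 (h z - h y))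
      (𝓝 z) := Continuous.tendsto' (by fun_prop) _ _ (by simp)
  refine infinite_of_mem_nhds (h z - h y) ?_ (hF n)
  filter_upwards [h1.eventually_mem (mem_interior_iff_mem_nhds.1 hz), gt_mem_nhds hn] with t a b
  refine ⟨?_, b⟩
  simp only [h, map_add, map_smul, u1, u2, smul_eq_mul, mul_zero, add_zero, z0,
    false_or, mul_one, add_div, mul_div_cancel_right₀ _ z0, RCLike.ofReal_re] at a
  convert a using 1
  ring

end Pool.Agent.H61.Pencil
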